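import Mathlib

set_option autoImplicit false

namespace Pool.Agent.Results.MP_9356de_co.Both

open Finset

def sm (a : ℤ) (X : Finset ℕ) : Finset ℤ := (X ×ˢ X).image fun p => (p.1 : ℤ) + a * p.2

theorem mem_sm {a u : ℤ} {X : Finset ℕ} : u ∈ sm a X ↔ ∃ x ∈ X, ∃ y ∈ X, (x : ℤ) + a * y = u := by
  simp only [sm, mem_image, mem_product, Prod.exists]
  constructor
  · rintro ⟨x, y, ⟨h1, h2⟩, h⟩; exact ⟨x, h1, y, h2, h⟩
  · rintro ⟨x, h1, y, h2, h⟩; exact ⟨x, y, ⟨h1, h2⟩, h⟩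

theorem sm_le (a : ℤ) (X : Finset ℕ) : (sm a X).card ≤ X.card * X.card :=
  card_image_le.trans (card_product _ _).le

def Ach (a0 : ℤ) (B : Finset ℕ) (ρ : ℤ → ℝ) : Prop :=
  ∃ X : Finset ℕ, B ⊆ X ∧ 0 ∈ X ∧ ∀ a, ((sm a X).card : ℝ) ≤ ρ a * (sm a0 X).card

theorem Ach.mul {a0 : ℤ} {B B' : Finset ℕ} {ρ ρ' : ℤ → ℝ} (h : Ach a0 B ρ) (h' : Ach a0 B' ρ') :
    Ach a0 B (fun a => ρ a * ρ' a) := by
  obtain ⟨X, hB, h0, hX⟩ := h
  obtain ⟨Y, -, h0', hY⟩ := h'
  obtain ⟨M, hM⟩ : ∃ M : ℕ, ∀ u ∈ sm a0 X, 2 * |u| < M := by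
    refine ⟨2 * (sm a0 X).sup Int.natAbs + 1, fun u hu => ?_⟩
    have := Finset.le_sup (f := Int.natAbs) hu
    rw [Int.abs_eq_natAbs]
    omega
  have key : ∀ a, sm a ((X ×ˢ Y).image fun p => p.1 + M * p.2)
      = (sm a X ×ˢ sm a Y).image fun p : ℤ × ℤ => p.1 + (M : ℤ) * p.2 := by
    intro a
    ext w
    simp only [mem_sm, mem_image, mem_product, Prod.exists]
    constructor
    · rintro ⟨_, ⟨x, y, ⟨hx, hy⟩, rfl⟩, _, ⟨x', y', ⟨hx', hy'⟩, rfl⟩, rfl⟩
      exact ⟨_, _, ⟨⟨x, hx, x', hx', rfl⟩, y, hy, y', hy', rfl⟩, by push_cast; ring⟩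
    · rintro ⟨_, _, ⟨⟨x, hx, x', hx', rfl⟩, y, hy, y', hy', rfl⟩, rfl⟩
      exact ⟨_, ⟨x, y, ⟨hx, hy⟩, rfl⟩, _, ⟨x', y', ⟨hx', hy'⟩, rfl⟩, by push_cast; ring⟩
  refine ⟨(X ×ˢ Y).image fun p => p.1 + M * p.2, fun x hx => mem_image.2 ⟨(x, 0),
    mem_product.2 ⟨hB hx, h0'⟩, by simp⟩, mem_image.2 ⟨(0, 0), mem_product.2 ⟨h0, h0'⟩, by simp⟩,
    fun a => ?_⟩
  have e0 : ((sm a0 X ×ˢ sm a0 Y).image fun p => p.1 + (M : ℤ) * p.2).card
      = (sm a0 X).card * (sm a0 Y).card := by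
    rw [card_image_of_injOn, card_product]
    rintro ⟨u, v⟩ hp ⟨u', v'⟩ hq e
    have h1 := hM u (mem_product.1 hp).1
    have h2 := hM u' (mem_product.1 hq).1
    simp only at e
    have h3 : u - u' = 0 := by
      apply Int.eq_zero_of_abs_lt_dvd (m := M) ⟨v' - v, by linarith⟩
      have := abs_sub u u'
      linarith
    have h4 : u = u' := by linarith
    subst h4
    have hM0 : (M : ℤ) ≠ 0 := by have := abs_nonneg u; omega
    rw [mul_left_cancel₀ hM0 (add_left_cancel e)]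
  rw [key, key, e0]
  have e1 : (((sm a X ×ˢ sm a Y).image fun p => p.1 + (M : ℤ) * p.2).card : ℝ)
      ≤ (sm a X).card * (sm a Y).card := by
    exact_mod_cast card_image_le.trans (card_product _ _).le
  push_cast
  calc _ ≤ _ := e1
    _ ≤ (ρ a * (sm a0 X).card) * (ρ' a * (sm a0 Y).card) :=
        mul_le_mul (hX a) (hY a) (by positivity) (le_trans (by positivity) (hX a))
    _ = _ := by ring

theorem Ach.mono {a0 : ℤ} {B : Finset ℕ} {ρ ρ' : ℤ → ℝ} (h : Ach a0 B ρ) (hh : ∀ a, ρ a ≤ ρ' a) :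
    Ach a0 B ρ' := by
  obtain ⟨X, h1, h2, h3⟩ := h
  exact ⟨X, h1, h2, fun a => (h3 a).trans (mul_le_mul_of_nonneg_right (hh a) (by positivity))⟩

theorem ach_one (a0 : ℤ) : Ach a0 ∅ (fun _ => 1) :=
  ⟨{0}, by simp, by simp, fun a => by simp [sm]⟩

theorem Ach.pow {a0 : ℤ} {B : Finset ℕ} {ρ : ℤ → ℝ} (h : Ach a0 B ρ) (k : ℕ) :
    Ach a0 B (fun a => ρ a ^ (k + 1)) := by
  induction k with
  | zero => simpa using h
  | succ k ih => simpa only [pow_succ] using ih.mul h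

theorem ach_of (a0 a1 : ℤ) (X : Finset ℕ) (h0 : 0 ∈ X) (s d : ℕ) (hs : (sm a0 X).card = s)
    (hd : (sm a1 X).card ≤ d) (x y : ℝ) (hx : d ≤ x * s) (hy : (X.card * X.card : ℕ) ≤ y * s) :
    Ach a0 X (fun a => if a = a1 then x else y) := by
  refine ⟨X, Subset.refl _, h0, fun a => ?_⟩
  rw [hs]
  beta_reduce
  split_ifs with h
  · subst h; exact le_trans (by exact_mod_cast hd) hx
  · exact le_trans (by exact_mod_cast sm_le a X) hy

theorem ach_T (T : ℕ) (hT : 4 ≤ T) : Ach 2 {0, 1, T} (fun a => if a = -T then 8 / 9 else 1) := by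
  have hc : ({0, 1, T} : Finset ℕ).card = 3 := card_eq_three.2 ⟨0, 1, T, by omega, by omega,
    by omega, rfl⟩
  refine ach_of 2 (-T) _ (by simp) 9 8 ?_ ?_ _ _ (by norm_num) (by rw [hc]; norm_num)
  · rw [sm, card_image_of_injOn, card_product, hc]
    rintro ⟨x, y⟩ hp ⟨x', y'⟩ hq e
    simp only [coe_product, coe_insert, coe_singleton, Set.mem_prod, Set.mem_insert_iff,
      Set.mem_singleton_iff, Prod.mk.injEq] at hp hq e ⊢
    omega
  · have : sm (-T) {0, 1, T} ⊆ (({0, 1, T} ×ˢ {0, 1, T} : Finset (ℕ × ℕ)).erase (T, 1)).image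
        fun p => (p.1 : ℤ) + (-T) * p.2 := by
      intro u hu
      obtain ⟨p, hp, rfl⟩ := mem_image.1 hu
      by_cases h : p = (T, 1)
      · subst h
        exact mem_image.2 ⟨(0, 0), by simp, by simp⟩
      · exact mem_image.2 ⟨p, mem_erase.2 ⟨h, hp⟩, rfl⟩
    refine (card_le_card this).trans (card_image_le.trans ?_)
    rw [card_erase_of_mem (by simp), card_product, hc]

theorem ach_W (J : ℕ) : Ach 2 ∅
    (fun a => if a ∈ ((range J).erase 1).image (fun j => -(2 : ℤ) ^ j) then 8 / 9 else 1) := by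
  induction J with
  | zero => simpa using ach_one 2
  | succ J ih =>
    by_cases h1 : J = 1
    · subst h1
      exact ih
    have hJ : ∃ B, Ach 2 B (fun a => if a = -(2 : ℤ) ^ J then 8 / 9 else 1) := by
      by_cases h0 : J = 0
      · subst h0
        exact ⟨_, ach_of 2 _ {0, 1} (by simp) 4 3 (by decide) (by decide) _ _ (by norm_num)
          (by norm_num)⟩
      · have := ach_T (2 ^ J) (by
          calc 4 = 2 ^ 2 := rfl
            _ ≤ _ := Nat.pow_le_pow_right (by norm_num) (by omega))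
        push_cast at this
        exact ⟨_, this⟩
    obtain ⟨B, hB⟩ := hJ
    refine (ih.mul hB).mono fun a => ?_
    rw [range_add_one, erase_insert_of_ne h1, image_insert]
    simp only [mem_insert]
    split_ifs <;> first | tauto | norm_num

theorem exB (J : ℕ) : ∃ B : Finset ℕ, 0 ∈ B ∧
    ∀ j < J, 2 * J * J * (sm (-2 ^ j) B).card < (sm 2 B).card := by
  have h1 := ach_of 2 (-2) {0, 2, 3, 6} (by simp) 13 12 (by decide) (by decide) (12 / 13) (16 / 13)
    (by norm_num) (by norm_num)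
  have h2 := (h1.mul (ach_W J)).mul (ach_W J)
  obtain ⟨k, hk⟩ := exists_pow_lt_of_lt_one (x := (1 : ℝ) / (2 * J * J + 1))
    (y := 1024 / 1053) (by positivity) (by norm_num)
  obtain ⟨B, -, h0, hB⟩ := h2.pow k
  refine ⟨B, h0, fun j hj => ?_⟩
  have h3 := hB (-2 ^ j)
  have hpos : (0 : ℝ) < (sm 2 B).card := by
    exact_mod_cast card_pos.2 ⟨_, mem_sm.2 ⟨0, h0, 0, h0, rfl⟩⟩
  have h4 : ((sm (-2 ^ j) B).card : ℝ) ≤ (1024 / 1053) ^ (k + 1) * (sm 2 B).card := by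
    refine h3.trans (mul_le_mul_of_nonneg_right (pow_le_pow_left₀ ?_ ?_ _) hpos.le)
    · split_ifs <;> norm_num
    · by_cases hj1 : j = 1
      · subst hj1
        rw [if_pos (by norm_num)]
        split_ifs <;> norm_num
      · have : -(2 : ℤ) ^ j ∈ ((range J).erase 1).image (fun j => -(2 : ℤ) ^ j) :=
          mem_image_of_mem _ (mem_erase.2 ⟨hj1, mem_range.2 hj⟩)
        rw [if_pos this]
        split_ifs <;> norm_num
  have h5 : ((1024 : ℝ) / 1053) ^ (k + 1) ≤ (1024 / 1053) ^ k :=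
    pow_le_pow_of_le_one (by norm_num) (by norm_num) (Nat.le_succ k)
  rw [lt_div_iff₀ (by positivity)] at hk
  have h6 : (2 * J * J * (sm (-2 ^ j) B).card : ℝ) < (sm 2 B).card := by
    have a1 : (0 : ℝ) ≤ 2 * J * J := by positivity
    have a2 := mul_le_mul_of_nonneg_left (h4.trans (mul_le_mul_of_nonneg_right h5 hpos.le)) a1
    have a3 : (0 : ℝ) < (1024 / 1053) ^ k := by positivity
    nlinarith
  exact_mod_cast h6

theorem exS : ∃ S : Finset ℕ, 0 ∈ S ∧ 1 ∈ S ∧ 2 * (sm (-1) S).card < (sm 1 S).card := by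
  have h1 := ach_of 1 (-1) {0, 1, 2, 4, 7, 8, 12, 14, 15} (by simp) 30 29 (by decide +kernel)
    (by decide +kernel) (29 / 30) (81 / 30) (by norm_num) (by norm_num)
  obtain ⟨S, h1, h0, hS⟩ := h1.pow 20
  refine ⟨S, h0, h1 (by simp), ?_⟩
  have h3 := hS (-1)
  have hpos : (0 : ℝ) < (sm 1 S).card := by
    exact_mod_cast card_pos.2 ⟨_, mem_sm.2 ⟨0, h0, 0, h0, rfl⟩⟩
  simp only [if_true] at h3
  have : (2 * (sm (-1) S).card : ℝ) < (sm 1 S).card := by
    have : ((29 : ℝ) / 30) ^ (20 + 1) < 1 / 2 := by norm_num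
    nlinarith
  exact_mod_cast this

theorem two_pow_odd {a b x y : ℕ} (hy : Odd y) (h : 2 ^ a * x = 2 ^ b * y) : a ≤ b := by
  have : 2 ^ a ∣ 2 ^ b := (Nat.Coprime.pow_left a hy.coprime_two_left).dvd_of_dvd_mul_right
    ⟨x, h.symm⟩
  exact (Nat.pow_dvd_pow_iff_le_right (by norm_num)).1 this

/-- A finite set of positive integers that is both MSTD and MPTR. -/
theorem result : ∃ A : Finset ℕ, A.Nonempty ∧ (∀ a ∈ A, 0 < a) ∧
    ((A ×ˢ A).image fun p => (p.1 : ℤ) - p.2).card < ((A ×ˢ A).image fun p => p.1 + p.2).card ∧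
    ((A ×ˢ A).image fun p => (p.1 : ℚ) / p.2).card < ((A ×ˢ A).image fun p => p.1 * p.2).card := by
  obtain ⟨S, s0, s1, hS⟩ := exS
  obtain ⟨J, hJ⟩ : ∃ J, ∀ s ∈ S, s < J :=
    ⟨S.sup id + 1, fun s hs => Nat.lt_succ_of_le (Finset.le_sup (f := id) hs)⟩
  obtain ⟨B, b0, hB⟩ := exB J
  obtain ⟨L, hL⟩ : ∃ L, ∀ b ∈ B, b ≤ L := ⟨B.sup id, fun s hs => Finset.le_sup (f := id) hs⟩
  obtain ⟨t, ht1, ht2⟩ : ∃ t, Odd t ∧ 2 * (L * L) < t := ⟨2 * (L * L) + 1, ⟨_, rfl⟩, by omega⟩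
  set A := (S ×ˢ B).image fun q => 2 ^ q.1 * (2 * q.2 + t) with hA
  have memA : ∀ s ∈ S, ∀ b ∈ B, 2 ^ s * (2 * b + t) ∈ A := fun s hs b hb =>
    mem_image.2 ⟨(s, b), mem_product.2 ⟨hs, hb⟩, rfl⟩
  have ofA : ∀ x ∈ A, ∃ s ∈ S, ∃ b ∈ B, x = 2 ^ s * (2 * b + t) := by
    intro x hx
    obtain ⟨⟨s, b⟩, hq, rfl⟩ := mem_image.1 hx
    exact ⟨s, (mem_product.1 hq).1, b, (mem_product.1 hq).2, rfl⟩
  have tpos : 0 < t := by omega
  refine ⟨A, ⟨_, memA 0 s0 0 b0⟩, ?_, ?_, ?_⟩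
  · intro x hx
    obtain ⟨s, -, b, -, rfl⟩ := ofA x hx
    positivity
  · have h1 : (sm 2 B).card ≤ ((A ×ˢ A).image fun p => p.1 + p.2).card := by
      apply card_le_card_of_injOn (fun u : ℤ => (2 * u + 3 * t).toNat)
      · intro u hu
        obtain ⟨x, hx, y, hy, rfl⟩ := mem_sm.1 hu
        refine mem_coe.2 (mem_image.2 ⟨(_, _), mem_product.2 ⟨memA 0 s0 x hx, memA 1 s1 y hy⟩, ?_⟩)
        simp only
        omega
      · intro u hu v hv e
        obtain ⟨x, hx, y, hy, rfl⟩ := mem_sm.1 hu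
        obtain ⟨x', hx', y', hy', rfl⟩ := mem_sm.1 hv
        simp only at e
        omega
    have h2 : ((A ×ˢ A).image fun p => (p.1 : ℤ) - p.2) ⊆
        (({1, -1} : Finset ℤ) ×ˢ range J ×ˢ range J).biUnion fun q =>
          (sm (-2 ^ q.2.2) B).image fun u => q.1 * 2 ^ q.2.1 * (2 * u + t - 2 ^ q.2.2 * t) := by
      intro w hw
      obtain ⟨⟨x, y⟩, hp, rfl⟩ := mem_image.1 hw
      obtain ⟨s, hs, b, hb, rfl⟩ := ofA x (mem_product.1 hp).1
      obtain ⟨s', hs', b', hb', rfl⟩ := ofA y (mem_product.1 hp).2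
      have a1 := hJ s hs
      have a2 := hJ s' hs'
      rcases le_total s s' with h | h
      · obtain ⟨j, rfl⟩ := Nat.exists_eq_add_of_le h
        refine mem_biUnion.2 ⟨(1, s, j), by simp; omega, mem_image.2
          ⟨_, mem_sm.2 ⟨b, hb, b', hb', rfl⟩, by push_cast; ring⟩⟩
      · obtain ⟨j, rfl⟩ := Nat.exists_eq_add_of_le h
        refine mem_biUnion.2 ⟨(-1, s', j), by simp; omega, mem_image.2
          ⟨_, mem_sm.2 ⟨b', hb', b, hb, rfl⟩, by push_cast; ring⟩⟩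
    obtain ⟨j, hj, hmax⟩ := exists_max_image (range J) (fun j => (sm (-2 ^ j) B).card)
      ⟨0, mem_range.2 (hJ 0 s0)⟩
    have h3 := (card_le_card h2).trans (card_biUnion_le_card_mul _ _ (sm (-2 ^ j) B).card
      fun q hq => card_image_le.trans (hmax _ (mem_product.1 (mem_product.1 hq).2).2))
    have h4 := hB j (mem_range.1 hj)
    rw [card_product, card_product, card_range, card_pair (by norm_num), ← mul_assoc] at h3
    omega
  · have h1 : ((A ×ˢ A).image fun p => (p.1 : ℚ) / p.2) ⊆ (sm (-1) S ×ˢ B ×ˢ B).image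
        fun q => (2 : ℚ) ^ q.1 * ((2 * q.2.1 + t) / (2 * q.2.2 + t)) := by
      intro w hw
      obtain ⟨⟨x, y⟩, hp, rfl⟩ := mem_image.1 hw
      obtain ⟨s, hs, b, hb, rfl⟩ := ofA x (mem_product.1 hp).1
      obtain ⟨s', hs', b', hb', rfl⟩ := ofA y (mem_product.1 hp).2
      refine mem_image.2 ⟨(_, b, b'), mem_product.2 ⟨mem_sm.2 ⟨s, hs, s', hs', rfl⟩,
        mem_product.2 ⟨hb, hb'⟩⟩, ?_⟩
      simp only [neg_mul, one_mul]
      rw [zpow_add₀ (by norm_num), zpow_neg, zpow_natCast, zpow_natCast]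
      push_cast
      field_simp
    have h2 := (card_le_card h1).trans card_image_le
    have h3 := card_le_mul_card_image (sm 1 S ×ˢ B ×ˢ B)
      (f := fun q => 2 ^ q.1.toNat * ((2 * q.2.1 + t) * (2 * q.2.2 + t))) 2 (by
        intro w hw
        obtain ⟨⟨u, b1, b2⟩, hq, rfl⟩ := mem_image.1 hw
        refine le_trans (card_le_card ?_) (card_le_two (a := (u, b1, b2)) (b := (u, b2, b1)))
        rintro ⟨v, b3, b4⟩ hr
        obtain ⟨hr2, e⟩ := mem_filter.1 hr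
        clear hr
        have hr := hr2
        simp only [mem_product] at hq hr e
        have o1 : ∀ x y : ℕ, Odd ((2 * x + t) * (2 * y + t)) := fun x y =>
          ((even_two_mul x).add_odd ht1).mul ((even_two_mul y).add_odd ht1)
        have e1 : v.toNat = u.toNat :=
          le_antisymm (two_pow_odd (o1 _ _) e) (two_pow_odd (o1 _ _) e.symm)
        rw [e1] at e
        have e2 := Nat.eq_of_mul_eq_mul_left (by positivity) e
        have e3 : v = u := by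
          obtain ⟨x, -, y, -, a1⟩ := mem_sm.1 hq.1
          obtain ⟨x', -, y', -, a2⟩ := mem_sm.1 hr.1
          omega
        have c1 := Nat.mul_le_mul (hL _ hq.2.1) (hL _ hq.2.2)
        have c2 := Nat.mul_le_mul (hL _ hr.2.1) (hL _ hr.2.2)
        have e4 : 2 * (b3 * b4) + t * (b3 + b4) = 2 * (b1 * b2) + t * (b1 + b2) := by nlinarith
        have e5 : b3 + b4 = b1 + b2 := by
          have := congrArg (· / t) e4
          simp only [Nat.add_mul_div_left _ _ tpos] at this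
          rwa [Nat.div_eq_of_lt (by omega), Nat.div_eq_of_lt (by omega), zero_add, zero_add] at this
        rw [e5] at e4
        have e6 : b3 * b4 = b1 * b2 := by omega
        have e7 : ((b3 : ℤ) - b1) * (b3 - b2) = 0 := by
          zify at e5 e6
          linear_combination (b3 : ℤ) * e5 - e6
        simp only [mem_insert, mem_singleton, Prod.mk.injEq]
        rcases mul_eq_zero.1 e7 with h | h <;> omega)
    have h4 : ((sm 1 S ×ˢ B ×ˢ B).image
        fun q => 2 ^ q.1.toNat * ((2 * q.2.1 + t) * (2 * q.2.2 + t))) ⊆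
        (A ×ˢ A).image fun p => p.1 * p.2 := by
      intro w hw
      obtain ⟨⟨u, b1, b2⟩, hq, rfl⟩ := mem_image.1 hw
      simp only [mem_product] at hq
      obtain ⟨x, hx, y, hy, rfl⟩ := mem_sm.1 hq.1
      refine mem_image.2 ⟨(_, _), mem_product.2 ⟨memA x hx b1 hq.2.1, memA y hy b2 hq.2.2⟩, ?_⟩
      simp only
      rw [show ((x : ℤ) + 1 * y).toNat = x + y by omega]
      ring
    have h5 := card_le_card h4
    simp only [card_product] at h2 h3
    have h6 : 0 < B.card * B.card := Nat.mul_pos (card_pos.2 ⟨0, b0⟩) (card_pos.2 ⟨0, b0⟩)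
    have h7 := (Nat.mul_lt_mul_right h6).2 hS
    rw [mul_assoc] at h7
    omega

end Pool.Agent.Results.MP_9356de_co.Both
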